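import Mathlib

/-!
A connected 8-regular graph on 37 vertices with total domination number at most 5 and path
covering number at least 3: a hub joined to the two nonadjacent vertices of each of four
copies of `K_9` minus an edge.
-/

namespace Pool.Agent.Results.MP_f6a359_co.HubBlocks

/-- `S` is a total dominating set of `G`: every vertex has a neighbour in `S`. -/
def IsTotalDominating {V : Type} (G : SimpleGraph V) (S : Finset V) : Prop :=
  ∀ v, ∃ w ∈ S, G.Adj v w

/-- The total domination number. -/
noncomputable def gammaT {V : Type} (G : SimpleGraph V) : ℕ :=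
  sInf {k | ∃ S : Finset V, IsTotalDominating G S ∧ S.card = k}

/-- `G` has a path cover with exactly `k` paths: paths `p 0, ..., p (k-1)` of `G` such that
every vertex lies on exactly one of them. -/
def HasPathCover {V : Type} (G : SimpleGraph V) (k : ℕ) : Prop :=
  ∃ (a b : Fin k → V) (p : ∀ i, G.Walk (a i) (b i)),
    (∀ i, (p i).IsPath) ∧ ∀ v, ∃! i, v ∈ (p i).support

/-- The path covering number: the least number of paths in a path cover. -/
noncomputable def pathCoverNumber {V : Type} (G : SimpleGraph V) : ℕ :=
  sInf {k | HasPathCover G k}

/-- The vertices: a hub `none` and four blocks of nine vertices. -/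
abbrev W : Type := Option (Fin 4 × Fin 9)

/-- The adjacency relation. -/
def adj : W → W → Bool
  | none, none => false
  | none, some (_, x) => x == 0 || x == 1
  | some (_, x), none => x == 0 || x == 1
  | some (i, x), some (j, y) =>
      i == j && !(x == y) && !(x == 0 && y == 1) && !(x == 1 && y == 0)

/-- The counterexample graph. -/
def H : SimpleGraph W where
  Adj a b := adj a b = true
  symm := ⟨by decide⟩
  loopless := ⟨by decide⟩

instance : DecidableRel H.Adj := fun a b => inferInstanceAs (Decidable (adj a b = true))

theorem H_regular : H.IsRegularOfDegree 8 := by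
  intro v
  revert v
  decide

/-- The block containing a vertex. -/
def blk : W → Option (Fin 4)
  | none => none
  | some (i, _) => some i

theorem blk_eq_of_adj {a b : W} (h : H.Adj a b) (ha : a ≠ none) (hb : b ≠ none) :
    blk a = blk b := by
  match a, b with
  | none, _ => exact absurd rfl ha
  | _, none => exact absurd rfl hb
  | some (i, x), some (j, y) =>
    have h' : adj (some (i, x)) (some (j, y)) = true := h
    simp only [adj, Bool.and_eq_true, beq_iff_eq] at h'
    simp only [blk]
    rw [h'.1.1.1]

theorem blk_const {u v : W} (p : H.Walk u v) (hp : none ∉ p.support) :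
    ∀ x ∈ p.support, blk x = blk v := by
  induction p with
  | nil =>
    intro x hx
    rw [SimpleGraph.Walk.support_nil, List.mem_singleton] at hx
    rw [hx]
  | @cons u w v h q ih =>
    rw [SimpleGraph.Walk.support_cons, List.mem_cons, not_or] at hp
    intro x hx
    rw [SimpleGraph.Walk.support_cons, List.mem_cons] at hx
    rcases hx with rfl | hx
    · have hw : w ≠ none := fun h => hp.2 (h ▸ q.start_mem_support)
      rw [blk_eq_of_adj h (Ne.symm hp.1) hw]
      exact ih hp.2 w q.start_mem_support
    · exact ih hp.2 x hx

theorem blk_start_none {v : W} (p : H.Walk none v) (hp : p.IsPath) :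
    ∀ x ∈ p.support, x ≠ none → blk x = blk v := by
  cases p with
  | nil =>
    intro x hx hne
    rw [SimpleGraph.Walk.support_nil, List.mem_singleton] at hx
    exact absurd hx hne
  | cons h q =>
    rw [SimpleGraph.Walk.cons_isPath_iff] at hp
    intro x hx hne
    rw [SimpleGraph.Walk.support_cons, List.mem_cons] at hx
    rcases hx with rfl | hx
    · exact absurd rfl hne
    · exact blk_const q hp.2 x hx

theorem blk_two {u v : W} (p : H.Walk u v) (hp : p.IsPath) (hn : none ∈ p.support) :
    ∀ x ∈ p.support, x ≠ none → blk x = blk u ∨ blk x = blk v := by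
  induction p with
  | nil =>
    intro x hx _
    rw [SimpleGraph.Walk.support_nil, List.mem_singleton] at hx
    rw [hx]; exact Or.inl rfl
  | @cons u w v h q ih =>
    intro x hx hne
    by_cases hu : u = none
    · subst hu
      exact Or.inr (blk_start_none _ hp x hx hne)
    · rw [SimpleGraph.Walk.support_cons, List.mem_cons] at hn hx
      have hn' : none ∈ q.support := by
        rcases hn with h' | h'
        · exact absurd h'.symm hu
        · exact h'
      rw [SimpleGraph.Walk.cons_isPath_iff] at hp
      rcases hx with rfl | hx
      · exact Or.inl rfl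
      · by_cases hw : w = none
        · subst hw
          exact Or.inr (blk_start_none q hp.1 x hx hne)
        · rw [blk_eq_of_adj h hu hw]
          exact ih hp.1 hn' x hx hne

theorem cover_lower {k : ℕ} (h : HasPathCover H k) : 3 ≤ k := by
  obtain ⟨a, b, p, hp, hcov⟩ := h
  choose idx hidx huniq using hcov
  set i0 := idx none with hi0
  have hmem : ∀ v, v ∈ (p (idx v)).support := fun v => hidx v
  let vx : Fin 4 → W := fun j => some (j, 2)
  let f : Fin 4 → Fin k := fun j => idx (vx j)
  -- blocks not on the hub path give distinct paths
  have hinj : ∀ j j', f j ≠ i0 → f j = f j' → j = j' := by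
    intro j j' hne heq
    have hn : none ∉ (p (f j)).support := by
      intro hc
      exact hne (huniq none (f j) hc)
    have h1 := blk_const (p (f j)) hn (vx j) (hmem (vx j))
    have h2 : vx j' ∈ (p (f j)).support := by
      rw [heq]; exact hmem (vx j')
    have h3 := blk_const (p (f j)) hn (vx j') h2
    have h4 : blk (vx j) = blk (vx j') := by rw [h1, h3]
    simpa [vx, blk] using h4
  have hA : (Finset.univ.filter (fun j => f j = i0)).card ≤ 2 := by
    have hsub : (Finset.univ.filter (fun j => f j = i0)).image (fun j => some j) ⊆
        ({blk (a i0), blk (b i0)} : Finset (Option (Fin 4))) := by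
      intro y hy
      rw [Finset.mem_image] at hy
      obtain ⟨j, hj, rfl⟩ := hy
      rw [Finset.mem_filter] at hj
      have h2 : vx j ∈ (p i0).support := by
        rw [← hj.2]; exact hmem (vx j)
      have h3 := blk_two (p i0) (hp i0) (hmem none) (vx j) h2 (by simp [vx])
      have h4 : blk (vx j) = some j := rfl
      rw [h4] at h3
      rcases h3 with h3 | h3
      · rw [h3]; simp
      · rw [h3]; simp
    have hc := Finset.card_le_card hsub
    rw [Finset.card_image_of_injective _ (Option.some_injective _)] at hc
    exact hc.trans Finset.card_le_two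
  have hB : (Finset.univ.filter (fun j => ¬ f j = i0)).card ≤ k - 1 := by
    have h1 : ((Finset.univ.filter (fun j => ¬ f j = i0)).image f).card =
        (Finset.univ.filter (fun j => ¬ f j = i0)).card := by
      apply Finset.card_image_of_injOn
      intro j hj j' _ heq
      rw [Finset.mem_coe, Finset.mem_filter] at hj
      exact hinj j j' hj.2 heq
    rw [← h1]
    have h2 : (Finset.univ.filter (fun j => ¬ f j = i0)).image f ⊆ Finset.univ.erase i0 := by
      intro y hy
      rw [Finset.mem_image] at hy
      obtain ⟨j, hj, rfl⟩ := hy
      rw [Finset.mem_filter] at hj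
      exact Finset.mem_erase.mpr ⟨hj.2, Finset.mem_univ _⟩
    have h3 := Finset.card_le_card h2
    rw [Finset.card_erase_of_mem (Finset.mem_univ i0), Finset.card_univ, Fintype.card_fin] at h3
    exact h3
  have hsum := Finset.card_filter_add_card_filter_not (s := (Finset.univ : Finset (Fin 4)))
    (fun j => f j = i0)
  rw [Finset.card_univ, Fintype.card_fin] at hsum
  omega

/-- In a finite graph the set of numbers `k` admitting a path cover is nonempty. -/
theorem hasPathCover_card {V : Type} [Fintype V] (G : SimpleGraph V) :
    HasPathCover G (Fintype.card V) := by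
  classical
  refine ⟨fun i => (Fintype.equivFin V).symm i, fun i => (Fintype.equivFin V).symm i,
    fun i => SimpleGraph.Walk.nil, fun i => SimpleGraph.Walk.IsPath.nil, fun v => ?_⟩
  refine ⟨Fintype.equivFin V v, by simp, ?_⟩
  intro i hi
  simp only [SimpleGraph.Walk.support_nil, List.mem_singleton] at hi
  rw [hi]; simp

/-- The total dominating set with five vertices. -/
def S : Finset W := {none, some (0, 0), some (1, 0), some (2, 0), some (3, 0)}

theorem S_td : IsTotalDominating H S := by
  unfold IsTotalDominating
  decide

theorem H_connected : H.Connected := by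
  haveI : Nonempty W := ⟨none⟩
  have key : ∀ v : W, H.Reachable none v := by
    have h0 : ∀ i : Fin 4, H.Reachable none (some (i, 0)) := by
      intro i
      apply SimpleGraph.Adj.reachable
      revert i; decide
    have h1 : ∀ v : W, v = none ∨ (∃ i, H.Adj (some (i, 0)) v) ∨ H.Adj none v := by
      decide
    intro v
    rcases h1 v with h | ⟨i, h⟩ | h
    · rw [h]
    · exact (h0 i).trans h.reachable
    · exact h.reachable
  exact SimpleGraph.Connected.mk (fun u v => (key u).symm.trans (key v))

theorem result :
    ∃ (V : Type) (_ : Fintype V) (_ : DecidableEq V) (G : SimpleGraph V)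
      (_ : DecidableRel G.Adj),
      G.Connected ∧ G.IsRegularOfDegree 8 ∧ gammaT G < 2 * pathCoverNumber G := by
  refine ⟨W, inferInstance, inferInstance, H, inferInstance, H_connected, H_regular, ?_⟩
  have h1 : gammaT H ≤ 5 := Nat.sInf_le ⟨S, S_td, by decide⟩
  have h2 : 3 ≤ pathCoverNumber H := by
    have hmem := Nat.sInf_mem (s := {k | HasPathCover H k})
      ⟨_, hasPathCover_card H⟩
    exact cover_lower hmem
  omega

end Pool.Agent.Results.MP_f6a359_co.HubBlocks
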